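import Pool.Agent.TH759.EV.NDich

/-!
# Eleven and thirteen points, arbitrary multiplicities
-/

set_option autoImplicit false

namespace Pool.Agent.TH759.EV

open Finset Pool.Agent.TH176.Nag Pool.Agent.TH603.Sur Pool.Agent.TH603.Cut Pool.Agent.TH469.SX
  Pool.Agent.H932R3

/-- emptiness in the degrees divisible by three, if the apex is absorbed by its row -/
theorem Emp_arb {q s n : ℕ} {K : ℝ} (h : Pool.Agent.TH864.SX.Num q s n K) (h12 : K < 12) {ι : Type}
    [Fintype ι] (hc : Fintype.card ι = n) {w : ι → ℕ} {d : ℕ}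
    (hX : √(n : ℝ) * (2 * d + 3) < n + 2 * ((∑ i, w i : ℕ) : ℝ))
    (hap : K / 3 * (d - √(n : ℝ) * (⌊(d : ℝ) / √(n : ℝ)⌋₊ : ℕ)) <
      ((∑ i, (w i - ⌊(d : ℝ) / √(n : ℝ)⌋₊) : ℕ) : ℝ)) : Emp w (TZ d) := by
  have hK9 := h.K9
  have hq := h.q0
  have hr3 := h.rr3
  have hrr := h.rr_sqrt
  have hr2 := h.rr_sq
  have hsK := h.sK
  rw [← hrr] at hr3 hr2 hsK
  obtain ⟨r, hr⟩ : ∃ r : ℝ, r = √(n : ℝ) := ⟨_, rfl⟩
  rw [← hr] at hrr hr3 hr2 hsK hX hap
  obtain ⟨L, hL⟩ : ∃ L : ℝ, L = K / 3 := ⟨_, rfl⟩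
  have hL3 : 3 < L := by rw [hL]; linarith
  have hKL : K = 3 * L := by rw [hL]; ring
  have hrL : r = 2 * L - 3 := by rw [hrr, hL]; unfold Pool.Agent.TH864.SX.rr; ring
  have hqL : (q : ℝ) * L * (L - 3) = 1 := by
    have := h.eq
    rw [hKL] at this
    linear_combination (1 / 9) * this
  have hKs : K + s = r * L := by rw [add_comm, hsK, hKL]; ring
  have hn : n = 9 + 2 * s := by
    have h1 := h.hn
    have h2 := h.hs
    have h3 : 0 < q := h.sl.hq
    have h4 : q * n = q * (9 + 2 * s) := by rw [h1]; linarith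
    exact Nat.eq_of_mul_eq_mul_left h3 h4
  have hnR : (n : ℝ) = 9 + 2 * s := by rw [hn]; push_cast; ring
  obtain ⟨A, hA⟩ : ∃ A : ℝ, A = L * d := ⟨_, rfl⟩
  have hd0 : (0 : ℝ) ≤ d := Nat.cast_nonneg _
  have hE : Emp w (Fl q K A ∪ {((0, 0) : ℤ × ℤ)}) := by
    refine Emp_apex_w (p := s) (q := q) (M := 9) h.hs (by linarith) (by exact_mod_cast h.eq)
      (by rw [hc, hn]) (by rw [hA]; positivity) ?_ ?_
    · rw [hKs, hA]
      have h1 : (((9 : ℕ) : ℝ) + 2 * s) = r * r := by rw [hr2, hnR]; push_cast; ring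
      rw [h1]
      have h2 := mul_lt_mul_of_pos_left hX (show 0 < q * L * r / 2 by positivity)
      have e1 : q * L * r / 2 * (r * (2 * d + 3)) = r * r * (q * L * d) + r * r * (q * L) * (3 / 2) := by
        ring
      have e2 : q * L * r / 2 * (n + 2 * ((∑ i, w i : ℕ) : ℝ)) =
          r * r * (q * L * (2 * L - 3)) / 2 + q * (r * L) * ((∑ i, w i : ℕ) : ℝ) := by
        rw [← hr2, ← hrL]; ring
      rw [e1, e2] at h2
      have e3 : r * r * (q * L * (2 * L - 3)) / 2 = r * r * (q * L) * (3 / 2) + r * r := by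
        linear_combination (r * r) * hqL
      rw [e3] at h2
      have e4 : r * r * (q * (L * d) - 1) = r * r * (q * L * d) - r * r := by ring
      rw [e4]
      linarith
    · intro g hg1 hg2
      rw [hKs, hA] at hg1 hg2 ⊢
      have hg : ⌊(d : ℝ) / r⌋₊ = g := by
        rw [Nat.floor_eq_iff (by positivity)]
        constructor
        · rw [le_div_iff₀ (by linarith)]
          have h1 : L * ((g : ℝ) * r) ≤ L * d := by linarith
          exact le_of_mul_le_mul_left h1 (by linarith)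
        · rw [div_lt_iff₀ (by linarith)]
          have h1 : L * (d : ℝ) < L * (((g : ℝ) + 1) * r) := by linarith
          exact lt_of_mul_lt_mul_left h1 (by linarith)
      rw [hg, ← hL] at hap
      have e1 : L * d - r * L * g = L * (d - r * g) := by ring
      rw [e1]
      exact hap
  · refine Pool.Agent.TH864.SX.Emp_TZ9 h.sl h12 (hE.mono ?_)
    rintro p (hp | hp)
    · left
      obtain ⟨h2, h3, h4, h5⟩ := hp
      refine ⟨h2, h3, h4, ?_⟩
      have e1 : K * d / 3 = L * d := by rw [hL]; ring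
      rw [e1, ← hA] at h5
      exact h5
    · right
      exact hp.2

/-- **Eleven and thirteen general points**, all multiplicities. -/
theorem expDim_arb {N : ℕ} (hN : N = 11 ∨ N = 13) (w : Fin N → ℕ) :
    ∃ F : MvPolynomial (Fin N × Fin 2) ℚ, F ≠ 0 ∧ ∀ {K : Type} [Field K] [CharZero K]
      (P : Fin N → Fin 2 → K),
      MvPolynomial.aeval (fun ij : Fin N × Fin 2 => P ij.1 ij.2) F ≠ 0 →
      ∀ d : ℕ, ((√(N : ℝ) * (2 * d + 3) < N + 2 * ∑ i, (w i : ℝ) ∧
            (¬ 3 ∣ d ∨ (3 + √(N : ℝ)) / 2 * (d - √(N : ℝ) * (⌊(d : ℝ) / √(N : ℝ)⌋₊ : ℕ)) <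
              ∑ i, ((w i - ⌊(d : ℝ) / √(N : ℝ)⌋₊ : ℕ) : ℝ))) ∨
          √(N : ℝ) * d < ∑ i, (w i : ℝ) ∨
          ∃ b : ℕ, (∀ i, w i ≤ b + 1) ∧
            N + 2 * ∑ i, ((max (w i) b : ℕ) : ℝ) ≤ √(N : ℝ) * (2 * d + 3)) →
        ExpDim K w P d := by
  obtain ⟨q, s, K, hnum, h12, q', s', hpar⟩ : ∃ (q s : ℕ) (K : ℝ),
      Pool.Agent.TH864.SX.Num q s N K ∧ K < 12 ∧ ∃ q' s' : ℤ, Par q' s' (LL N) (√(N : ℝ) * LL N) N := by
    rcases hN with rfl | rfl
    · exact ⟨2, 1, _, Pool.Agent.TH864.SX.num11, Pool.Agent.TH864.SX.K11_lt, 2, 1,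
        par_of (by norm_num) (by norm_num) (by norm_num) (by norm_num) (by norm_num)⟩
    · exact ⟨1, 2, _, Pool.Agent.TH864.SX.num13, Pool.Agent.TH864.SX.K13_lt, 1, 2,
        par_of (by norm_num) (by norm_num) (by norm_num) (by norm_num) (by norm_num)⟩
  have hK3 : K / 3 = (3 + √(N : ℝ)) / 2 := by
    have := hnum.rr_sqrt
    unfold Pool.Agent.TH864.SX.rr at this
    rw [this]; ring
  have hcast : ((∑ i, w i : ℕ) : ℝ) = ∑ i, (w i : ℝ) := by push_cast; rfl
  have h9 := hnum.n9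
  have hr1 : 1 ≤ √(N : ℝ) := by
    have := hnum.rr3
    rw [← hnum.rr_sqrt] at this
    linarith
  obtain ⟨F, hF, hF'⟩ := expDim_two (n := N) (w := w)
    (A := fun d => (√(N : ℝ) * (2 * d + 3) < N + 2 * ∑ i, (w i : ℝ) ∧
            (¬ 3 ∣ d ∨ (3 + √(N : ℝ)) / 2 * (d - √(N : ℝ) * (⌊(d : ℝ) / √(N : ℝ)⌋₊ : ℕ)) <
              ∑ i, ((w i - ⌊(d : ℝ) / √(N : ℝ)⌋₊ : ℕ) : ℝ))) ∨
      √(N : ℝ) * d < ∑ i, (w i : ℝ))
    (B := fun d => ∃ b : ℕ, (∀ i, w i ≤ b + 1) ∧
      N + 2 * ∑ i, ((max (w i) b : ℕ) : ℝ) ≤ √(N : ℝ) * (2 * d + 3)) (N + ∑ i, w i) (by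
      intro d hd
      have h7 : (d : ℝ) ≤ ((N + ∑ i, w i : ℕ) : ℝ) := by
        push_cast
        have h8 : (0 : ℝ) ≤ d := Nat.cast_nonneg _
        have h9 : (0 : ℝ) ≤ N := Nat.cast_nonneg _
        rcases hd with ⟨hd, _⟩ | hd
        · have h10 : 2 * (d : ℝ) + 3 ≤ √(N : ℝ) * (2 * d + 3) :=
            le_mul_of_one_le_left (by linarith) hr1
          linarith
        · have h10 : (d : ℝ) ≤ √(N : ℝ) * d := le_mul_of_one_le_left h8 hr1
          linarith
      exact_mod_cast h7) (by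
      intro d hd
      rcases hd with ⟨hd, hd3⟩ | hd
      · by_cases h3 : 3 ∣ d
        · refine Emp_arb hnum h12 (Fintype.card_fin N) (by rw [hcast]; exact hd) ?_
          rcases hd3 with hd3 | hd3
          · exact absurd h3 hd3
          · rw [hK3]
            push_cast
            exact hd3
        · exact Emp_pl hpar (Fintype.card_fin N) h3 hd
      · refine Pool.Agent.TH603.EL.Emp_plane (ι := Fin N) (w := w) (d := d) ?_ ?_
        · rw [Fintype.card_fin]; exact h9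
        · rw [Fintype.card_fin]; exact hd) (by
      rintro d ⟨b, hb, hd⟩
      exact Sur_pl hpar (Fintype.card_fin N) hb (by
        have := hd
        push_cast at this ⊢
        exact this))
  exact ⟨F, hF, fun {K} _ _ P hP d hd => hF' P hP d (by
    rcases hd with hd | hd | hd
    · exact Or.inl (Or.inl hd)
    · exact Or.inl (Or.inr hd)
    · exact Or.inr hd)⟩

end Pool.Agent.TH759.EV
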