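import Pool.Agent.TH978.S13.Lead

/-!
# Thirteen points, nearly equal multiplicities: the leading form vanishes
-/

set_option autoImplicit false

namespace Pool.Agent.TH759.EV

open Finset Pool.Agent.TH176.Nag Pool.Agent.TH978.S13

/-- the nonzero Taylor coefficients at `Y = 1` of the columns -/
theorem tau_ne' {K D : ℝ} (hK : 0 < K) {m κ : ℕ} {e e' : ℝ} (hD : D = (K + 2) * m + e)
    (he0 : 0 ≤ e) (heK : e < K + 2) (he'0 : 0 ≤ e') (h1 : e' * (K + 1) + e < K + 2)
    (hκ : ∀ k : ℕ, k < κ ↔ e' * (K + 1) < (m : ℝ) - k)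
    {g ψ : (ℤ × ℤ) →₀ ℚ} (hg : ∀ p ∈ g.support, p ∈ BlkB K D)
    (hV : ∀ (c : ℤ) (k : ℕ), k < m → (e' - c) * (K + 1) < (m : ℝ) - k →
      tau g c (fun b => dsc k (b - c + 1)) = 0)
    (hV' : ∀ c : ℤ, 1 ≤ c → tau g c (fun b => dsc m (b - c + 1)) = 0)
    (hψ : ∀ p ∈ ψ.support, p.1 = 0 ∧ -1 ≤ p.2 ∧ p.2 < κ) (hψ1 : ψ (0, -1) = 1)
    (hψt : ∀ k < κ, tau ψ 0 (fun b => dsc k (b + 1)) = 0)
    {c : ℤ} {k : ℕ} (ht : tau (g - g (0, -1) • ψ) c (dsc k) ≠ 0) :
    c ≤ 0 ∧ k < m ∧ (m : ℝ) - k ≤ (e' - c) * (K + 1) ∧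
      (-(c : ℝ)) * (K + 1) ≤ (K + 2) * ((m : ℝ) - k - 1) + e := by
  have hK1 : 0 < K + 1 := by linarith
  have hψ0 : ∀ p : ℤ × ℤ, (p.1 ≠ 0 ∨ p.2 < -1 ∨ (κ : ℤ) ≤ p.2) → ψ p = 0 := by
    intro p hp
    by_contra hne
    have := hψ p (Finsupp.mem_support_iff.2 hne)
    omega
  -- columns `c ≥ 1`
  have hc : c ≤ 0 := by
    by_contra hc
    push Not at hc
    have hcR : (1 : ℝ) ≤ (c : ℝ) := by exact_mod_cast hc
    apply ht
    have hmem : ∀ b : ℤ, g (c, b) ≠ 0 → 0 ≤ b - c + 1 ∧ (b - c + 1 : ℤ) < m + 1 := by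
      intro b hb
      have h3 := hg _ (Finsupp.mem_support_iff.2 hb)
      rcases h3 with h3 | h3
      · obtain ⟨h4, h5, h6⟩ := h3
        simp only at h4 h5 h6
        refine ⟨h5, ?_⟩
        have h7 : ((b - c + 1 : ℤ) : ℝ) < m + 1 := by
          push_cast
          by_contra h8
          push Not at h8
          have h9 : (K + 2) * ((m : ℝ) + 1) ≤ (K + 2) * ((b : ℝ) - c + 1) :=
            mul_le_mul_of_nonneg_left h8 (by linarith)
          rw [hD] at h6
          linarith
        exact_mod_cast h7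
      · rw [Set.mem_singleton_iff, Prod.mk.injEq] at h3
        omega
    have hgz : ∀ b : ℤ, g (c, b) = 0 := by
      refine eq_zero_of_tau_shift (s := 1 - c) ?_ ?_
      · intro b hb
        by_contra hne
        have := (hmem b hne).1
        omega
      · intro l
        have e1 : (fun b : ℚ => (dsc l (b + ((1 - c : ℤ) : ℚ)) : ℚ)) = fun b : ℚ => dsc l (b - c + 1) := by
          funext b
          congr 1
          push_cast
          ring
        rw [e1]
        rcases lt_trichotomy l m with hl | hl | hl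
        · apply hV c l hl
          have h5 : ((l : ℕ) : ℝ) + 1 ≤ m := by exact_mod_cast hl
          have h6 : (e' - c) * (K + 1) ≤ (e' - 1) * (K + 1) :=
            mul_le_mul_of_nonneg_right (by linarith) hK1.le
          linarith
        · rw [hl]
          exact hV' c (by omega)
        · apply tau_eq_zero
          intro b hb
          have h3 := hmem b hb
          have e2 : (b : ℚ) - c + 1 = ((b - c + 1 : ℤ) : ℚ) := by push_cast; ring
          rw [e2]
          apply dsc_eq_zero h3.1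
          have : (m : ℤ) + 1 ≤ l := by exact_mod_cast hl
          omega
    apply tau_eq_zero
    intro b hb
    exfalso
    apply hb
    rw [Finsupp.sub_apply, Finsupp.smul_apply, hgz, hψ0 (c, b) (Or.inl (by simp only; omega))]
    simp
  have hcR : (c : ℝ) ≤ 0 := by exact_mod_cast hc
  obtain ⟨u, hu⟩ := Int.eq_ofNat_of_zero_le (show 0 ≤ -c by omega)
  -- (Kp)
  have hKp : (m : ℝ) - k ≤ (e' - c) * (K + 1) := by
    by_contra hlt
    push Not at hlt
    apply ht
    have hkm : k < m := by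
      have : (0 : ℝ) < m - k := lt_of_le_of_lt (mul_nonneg (by linarith) hK1.le) hlt
      have : (k : ℝ) < m := by linarith
      exact_mod_cast this
    rw [tau_sub_smul]
    have hgt : tau g c (dsc k) = 0 := by
      refine tau_shift (κ := k + 1) (u + 1) ?_ k (by omega)
      intro k' hk'
      have h4 := hV c k' (by omega) (by
        have : (k' : ℝ) ≤ k := by exact_mod_cast Nat.lt_succ_iff.1 hk'
        linarith)
      convert h4 using 2
      funext b
      congr 1
      have : (u : ℚ) = -(c : ℚ) := by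
        have : ((u : ℤ) : ℚ) = ((-c : ℤ) : ℚ) := by rw [hu]
        push_cast at this
        exact this
      push_cast
      rw [this]
      ring
    have hψt' : tau ψ c (dsc k) = 0 := by
      by_cases h5 : c = 0
      · subst h5
        refine tau_shift (κ := k + 1) 1 ?_ k (by omega)
        intro k' hk'
        have hk'' : k' < κ := by
          rw [hκ]
          have : (k' : ℝ) ≤ k := by exact_mod_cast Nat.lt_succ_iff.1 hk'
          push_cast at hlt
          rw [sub_zero] at hlt
          linarith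
        have h6 := hψt k' hk''
        convert h6 using 2
        funext b
        norm_num
      · apply tau_eq_zero
        intro b hb
        exact absurd (hψ0 (c, b) (Or.inl h5)) hb
    rw [hgt, hψt']
    ring
  -- an element of the column
  obtain ⟨b, hb, hkb⟩ : ∃ b : ℤ, (g - g (0, -1) • ψ) (c, b) ≠ 0 ∧ (k : ℤ) ≤ b := by
    by_contra hcon
    push Not at hcon
    apply ht
    apply tau_eq_zero
    intro b hb
    have h3 := hcon b hb
    apply dsc_eq_zero _ h3
    by_contra hneg
    push Not at hneg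
    apply hb
    rw [Finsupp.sub_apply, Finsupp.smul_apply, smul_eq_mul]
    by_cases h : (c, b) = (0, -1)
    · rw [h, hψ1]; ring
    · have hgz : g (c, b) = 0 := by
        by_contra hne
        rcases hg _ (Finsupp.mem_support_iff.2 hne) with h3 | h3
        · have := h3.1
          simp only at this
          omega
        · exact h h3
      have hψz : ψ (c, b) = 0 := by
        apply hψ0
        by_contra hne
        push Not at hne
        apply h
        simp only at hne
        exact Prod.ext hne.1 (by simp only; omega)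
      rw [hgz, hψz]; ring
  have hgb : g (c, b) ≠ 0 := by
    intro h
    rw [Finsupp.sub_apply, Finsupp.smul_apply, smul_eq_mul, h, zero_sub, neg_ne_zero] at hb
    have hψb := right_ne_zero_of_mul hb
    have h3 : c = 0 ∧ b < κ := by
      by_contra hne
      apply hψb
      apply hψ0
      simp only
      by_cases hc0 : c = 0
      · right; right
        by_contra h4
        exact hne ⟨hc0, by omega⟩
      · left; exact hc0
    have h4 : k < κ := by omega
    rw [hκ] at h4
    rw [h3.1] at hKp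
    push_cast at hKp
    rw [sub_zero] at hKp
    linarith
  have hbR : (k : ℝ) ≤ b := by exact_mod_cast hkb
  have hH : (-(c : ℝ)) * (K + 1) ≤ (K + 2) * ((m : ℝ) - k - 1) + e := by
    rcases hg _ (Finsupp.mem_support_iff.2 hgb) with h3 | h3
    · have h4 := h3.2.2
      simp only at h4
      have h5 : (K + 2) * ((k : ℝ) - c + 1) ≤ (K + 2) * ((b : ℝ) - c + 1) :=
        mul_le_mul_of_nonneg_left (by linarith) (by linarith)
      rw [hD] at h4
      linarith
    · rw [Set.mem_singleton_iff, Prod.mk.injEq] at h3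
      omega
  refine ⟨hc, ?_, hKp, hH⟩
  by_contra hkm
  have h5 : (m : ℝ) ≤ k := by exact_mod_cast not_lt.1 hkm
  have h6 : (K + 2) * ((m : ℝ) - k - 1) ≤ (K + 2) * (-1) :=
    mul_le_mul_of_nonneg_left (by linarith) (by linarith)
  have h7 : 0 ≤ (-(c : ℝ)) * (K + 1) := mul_nonneg (by linarith) hK1.le
  linarith

/-- the leading form vanishes -/
theorem lead_zero' {M m : ℕ} {K D : ℝ} (hK : 0 < K) (hK2 : K ^ 2 = M * K + M) {n1 : ℤ} {e e' : ℝ}
    (hD : D = (K + 2) * m + e) (hn1 : e' = e - n1)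
    (he0 : 0 ≤ e) (heK : e < K + 2) (he'0 : 0 ≤ e') (h1 : e' * (K + 1) + e < K + 2)
    (hdef : ∃ k : ℕ, k < m ∧ ⌊D - (K + 2) * k⌋ + ⌊(D - (K + 2) * k - 1) / (K + 1)⌋ <
      ((M : ℤ) + 4) * ((m : ℤ) - k) + n1) :
    ∃ y0 : ℚ, y0 ≠ 0 ∧ y0 ≠ 1 ∧ ∀ g : (ℤ × ℤ) →₀ ℚ, (∀ p ∈ g.support, p ∈ BlkB K D) →
      (∀ (c : ℤ) (k : ℕ), k < m → (e' - c) * (K + 1) < (m : ℝ) - k →
        tau g c (fun b => dsc k (b - c + 1)) = 0) →
      (∀ c : ℤ, 1 ≤ c → tau g c (fun b => dsc m (b - c + 1)) = 0) → LM g 1 y0 m → g = 0 := by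
  classical
  obtain ⟨ks, hks, hdef⟩ := hdef
  have hK1 : 0 < K + 1 := by linarith
  have hrel : ((M : ℝ) + 3) * (K + 1) = (K + 1) * (K + 2) + 1 := by linarith
  -- the exponent of the test polynomial
  set κ : ℕ := ⌈(m : ℝ) - e' * (K + 1)⌉₊ with hκ
  have hκ' : ∀ k : ℕ, k < κ ↔ e' * (K + 1) < (m : ℝ) - k := by
    intro k
    rw [hκ, Nat.lt_ceil]
    constructor <;> intro h <;> linarith
  obtain ⟨ψ, hψ, hψ1, hψt⟩ := exists_psi κ
  -- the operators
  set ls : ℕ := m - ks with hls
  set γ : ℤ := ⌊(D - (K + 2) * ks - 1) / (K + 1)⌋ - ls with hγ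
  set A : ℤ := ⌊D - (K + 2) * ks⌋ - ((M : ℤ) + 3) * ls - n1 with hA
  have hlsZ : (ls : ℤ) = (m : ℤ) - ks := by omega
  have hlsR : (ls : ℝ) = (m : ℝ) - ks := by exact_mod_cast hlsZ
  have hAγ : A + γ ≤ -1 := by
    rw [← hlsZ] at hdef
    have : ((M : ℤ) + 4) * ls = ((M : ℤ) + 3) * ls + ls := by ring
    rw [this] at hdef
    omega
  set L : List (ℚ × ℚ) := (List.range (m - ls)).map (fun k : ℕ => (((k : ℕ) : ℚ), (0 : ℚ))) ++
    (List.range (ls - 1)).map (fun i : ℕ => ((m : ℚ) - (1 - γ + i), (1 : ℚ))) with hL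
  have hlen : L.length + 1 = m := by
    rw [hL, List.length_append, List.length_map, List.length_map, List.length_range, List.length_range]
    omega
  obtain ⟨y0, hy0, hy1, hap⟩ := apex hlen (ψ := ψ) (fun p hp => ⟨(hψ p hp).1, (hψ p hp).2.1⟩) hψ1
  refine ⟨y0, hy0, hy1, fun g hg hV hV' hLM => ?_⟩
  have hT : ∀ {c : ℤ} {k : ℕ}, tau (g - g (0, -1) • ψ) c (dsc k) ≠ 0 →
      c ≤ 0 ∧ k < m ∧ (m : ℝ) - k ≤ (e' - c) * (K + 1) ∧
      (-(c : ℝ)) * (K + 1) ≤ (K + 2) * ((m : ℝ) - k - 1) + e := fun {c k} ht =>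
    tau_ne' hK hD he0 heK he'0 h1 hκ' hg hV hV' hψ hψ1 hψt ht
  have ha : g (0, -1) = 0 := by
    apply hap g hLM
    · intro p hp
      rcases hg p hp with h3 | h3
      · exact Or.inl h3.1
      · exact Or.inr h3
    · intro c k ht
      obtain ⟨h3, h4, h5, h6⟩ := hT ht
      by_cases hk : k < m - ls
      · refine ⟨((k : ℚ), 0), ?_, by simp⟩
        rw [hL, List.mem_append]
        left
        exact List.mem_map.2 ⟨k, List.mem_range.2 hk, rfl⟩
      · have hkR : (m : ℝ) - k ≤ ls := by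
          have : (m : ℤ) - k ≤ ls := by omega
          exact_mod_cast this
        have e1 : D - (K + 2) * ks = e + (K + 2) * ls := by rw [hD, hlsR]; ring
        -- upper bound
        have hup : -c - ((m : ℤ) - k) + 1 ≤ γ := by
          have : -c - ((m : ℤ) - k) + 1 + ls ≤ ⌊(D - (K + 2) * ks - 1) / (K + 1)⌋ := by
            rw [Int.le_floor, le_div_iff₀ hK1]
            push_cast
            rw [e1]
            nlinarith
          omega
        have hlo : ((m : ℤ) - k) + c - ls ≤ A := by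
          have : ((m : ℤ) - k) + c - ls + ((M : ℤ) + 3) * ls + n1 ≤ ⌊D - (K + 2) * ks⌋ := by
            rw [Int.le_floor]
            push_cast
            rw [e1]
            have h7 : 0 ≤ K * ((ls : ℝ) - (m - k)) := mul_nonneg hK.le (by linarith)
            have h8 : ((m : ℝ) - k + c - ls + (M + 3) * ls + n1) * (K + 1) ≤
                (e + (K + 2) * ls) * (K + 1) := by
              have h9 : ((m : ℝ) - k + c - ls + (M + 3) * ls + n1) * (K + 1) =
                ((m : ℝ) - k + c - ls + n1) * (K + 1) + ls * (((M : ℝ) + 3) * (K + 1)) := by ring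
              rw [h9, hrel]
              rw [hn1] at h5
              nlinarith
            exact le_of_mul_le_mul_right h8 hK1
          omega
        set i : ℕ := (((m : ℤ) - k) + c - 1 + γ).toNat with hi
        have hiZ : (i : ℤ) = ((m : ℤ) - k) + c - 1 + γ := by omega
        have hiQ : (i : ℚ) = ((m : ℚ) - k) + c - 1 + γ := by exact_mod_cast hiZ
        refine ⟨((m : ℚ) - (1 - γ + i), 1), ?_, ?_⟩
        · rw [hL, List.mem_append]
          right
          exact List.mem_map.2 ⟨i, List.mem_range.2 (by omega), rfl⟩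
        · simp only
          rw [hiQ]
          ring
  have hfg : g - g (0, -1) • ψ = g := by rw [ha]; simp
  rw [hfg] at hT
  refine rows_single (K := ℚ) one_ne_zero hy0 hy1 m 0 g ?_ hLM ?_ ?_
  · intro p hp
    rcases hg p hp with h3 | h3
    · exact h3.1
    · rw [Set.mem_singleton_iff] at h3
      rw [h3] at hp
      exact absurd ha (Finsupp.mem_support_iff.1 hp)
  · intro c k hk
    by_contra ht
    have := (hT ht).2.1
    omega
  · intro k hk
    refine ⟨Finset.Icc ⌈-(((K + 2) * ((m : ℝ) - k - 1) + e) / (K + 1))⌉ ⌊e' - ((m : ℝ) - k) / (K + 1)⌋, ?_, ?_⟩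
    · rw [Int.card_Icc]
      have h3 : ((⌊e' - ((m : ℝ) - k) / (K + 1)⌋ : ℤ) : ℝ) ≤ e' - ((m : ℝ) - k) / (K + 1) := Int.floor_le _
      have h4 : -(((K + 2) * ((m : ℝ) - k - 1) + e) / (K + 1)) ≤
        ((⌈-(((K + 2) * ((m : ℝ) - k - 1) + e) / (K + 1))⌉ : ℤ) : ℝ) := Int.le_ceil _
      have h5 : (e' - ((m : ℝ) - k) / (K + 1)) - (-(((K + 2) * ((m : ℝ) - k - 1) + e) / (K + 1))) <
          (m : ℝ) - k := by
        have : (e' - ((m : ℝ) - k) / (K + 1)) - (-(((K + 2) * ((m : ℝ) - k - 1) + e) / (K + 1))) =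
          (m : ℝ) - k - (K + 2 - e - e' * (K + 1)) / (K + 1) := by
          field_simp
          ring
        rw [this]
        have : 0 < (K + 2 - e - e' * (K + 1)) / (K + 1) := div_pos (by linarith) hK1
        linarith
      have h6 : ((⌊e' - ((m : ℝ) - k) / (K + 1)⌋ - ⌈-(((K + 2) * ((m : ℝ) - k - 1) + e) / (K + 1))⌉ : ℤ) : ℝ) <
          ((m - k : ℤ) : ℝ) := by
        push_cast
        linarith
      have h7 := Int.cast_lt.1 h6
      omega
    · intro c ht
      rw [zero_add] at ht
      obtain ⟨h3, h4, h5, h6⟩ := hT ht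
      rw [Finset.mem_Icc, Int.ceil_le, Int.le_floor]
      constructor
      · rw [neg_le, le_div_iff₀ hK1]
        exact h6
      · rw [le_sub_iff_add_le, ← le_sub_iff_add_le', div_le_iff₀ hK1]
        exact h5

end Pool.Agent.TH759.EV
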